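import Pool.Agent.Helper48.KM.Stmts

/-!
`LV`: a Laurent polynomial vanishing at all units is zero.
-/

namespace Pool.Agent.Helper2.KM

open Pool.Agent.Helper48.KM

theorem st_LV : ST_LV := by
  intro f hf
  obtain ⟨n, p, hp⟩ := LaurentPolynomial.exists_T_pow f
  have h1 : ∀ s : ℂˣ, p.eval (s : ℂ) = 0 := by
    intro s
    have h2 : LaurentPolynomial.eval₂ (RingHom.id ℂ) s (Polynomial.toLaurent p) = 0 := by
      rw [hp, map_mul, hf s, zero_mul]
    rw [LaurentPolynomial.eval₂_toLaurent] at h2
    simpa [Polynomial.eval₂_id] using h2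
  have h3 : p = 0 := by
    refine Polynomial.eq_zero_of_infinite_isRoot p ?_
    refine Set.Infinite.mono (s := {0}ᶜ) ?_ ?_
    · intro z hz
      exact h1 (Units.mk0 z hz)
    · exact Set.Finite.infinite_compl (Set.finite_singleton 0)
  rw [h3, map_zero] at hp
  have h4 : IsUnit (LaurentPolynomial.T (R := ℂ) n) := LaurentPolynomial.isUnit_T _
  exact (h4.mul_left_eq_zero.1 hp.symm)

end Pool.Agent.Helper2.KM
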